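import Mathlib
import Pool.Agent.H18PC.PC

set_option autoImplicit false

/-!
The group `Z[T x I] x| T` for an abelian group `T`, as pairs.
-/

namespace Pool.Agent.H96MB

open Pool.Agent.H18PC

variable {T ι : Type*} [AddCommGroup T]

/-- translation of an element of the free abelian group on `T × ι` by `s` -/
noncomputable def shift (s : T) : (T × ι →₀ ℤ) →+ (T × ι →₀ ℤ) :=
  Finsupp.mapDomain.addMonoidHom (fun p : T × ι => (s + p.1, p.2))

/-- push forward to the free abelian group on `T/K × ι` -/
noncomputable def push (K : AddSubgroup T) : (T × ι →₀ ℤ) →+ ((T ⧸ K) × ι →₀ ℤ) :=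
  Finsupp.mapDomain.addMonoidHom (fun p : T × ι => ((QuotientAddGroup.mk p.1 : T ⧸ K), p.2))

/-- all sums of translates of the members of a list -/
def comb : List (T × ι →₀ ℤ) → Set (T × ι →₀ ℤ)
  | [] => {0}
  | u :: us => {c | ∃ s z, z ∈ comb us ∧ c = shift s u + z}

/-- the semidirect product of `Z[T × ι]` and `T` -/
@[ext] structure W (T ι : Type*) where
  /-- the component in `T` -/
  t : T
  /-- the component in the module -/
  m : T × ι →₀ ℤ

end Pool.Agent.H96MB
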