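import Mathlib
import Pool.Agent.H96MB.Defs

set_option autoImplicit false
namespace Pool.Agent.H96MB
open Pool.Agent.H18PC

variable {T ι : Type*} [AddCommGroup T]

@[simp] theorem shift_single (s t : T) (i : ι) (n : ℤ) :
    shift s (Finsupp.single (t, i) n) = Finsupp.single (s + t, i) n := by
  simp [shift, Finsupp.mapDomain.addMonoidHom]

@[simp] theorem shift_zero_left (x : T × ι →₀ ℤ) : shift 0 x = x := by
  have : (fun p : T × ι => ((0 : T) + p.1, p.2)) = id := by
    funext p; simp
  show Finsupp.mapDomain _ x = x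
  rw [this, Finsupp.mapDomain_id]

theorem shift_shift (s t : T) (x : T × ι →₀ ℤ) : shift s (shift t x) = shift (s + t) x := by
  show Finsupp.mapDomain _ (Finsupp.mapDomain _ x) = Finsupp.mapDomain _ x
  rw [← Finsupp.mapDomain_comp]
  congr 1
  funext p
  simp [add_assoc]

noncomputable instance : Mul (W T ι) := ⟨fun a b => ⟨a.t + b.t, a.m + shift a.t b.m⟩⟩
noncomputable instance : One (W T ι) := ⟨⟨0, 0⟩⟩
noncomputable instance : Inv (W T ι) := ⟨fun a => ⟨-a.t, shift (-a.t) (-a.m)⟩⟩

@[simp] theorem mul_t (a b : W T ι) : (a * b).t = a.t + b.t := rfl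
@[simp] theorem mul_m (a b : W T ι) : (a * b).m = a.m + shift a.t b.m := rfl
@[simp] theorem one_t : (1 : W T ι).t = 0 := rfl
@[simp] theorem one_m : (1 : W T ι).m = 0 := rfl
@[simp] theorem inv_t (a : W T ι) : (a⁻¹).t = -a.t := rfl
@[simp] theorem inv_m (a : W T ι) : (a⁻¹).m = shift (-a.t) (-a.m) := rfl

noncomputable instance : Group (W T ι) := Group.ofLeftAxioms
  (by
    intro a b c
    ext1
    · simp [add_assoc]
    · simp [shift_shift, add_assoc])
  (by
    intro a
    ext1
    · simp
    · simp)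
  (by
    intro a
    ext1
    · simp
    · simp)

/-- the subgroup generated by the `(1 - a.t) n` -/
noncomputable def J (as : List (W T ι)) : AddSubgroup (T × ι →₀ ℤ) :=
  AddSubgroup.closure {x | ∃ a ∈ as, ∃ n, x = n - shift a.t n}

theorem J_mono {as bs : List (W T ι)} (h : ∀ a ∈ as, a ∈ bs) : J as ≤ J bs := by
  apply AddSubgroup.closure_mono
  rintro x ⟨a, ha, n, rfl⟩
  exact ⟨a, h a ha, n, rfl⟩

theorem J_sub {as : List (W T ι)} {a : W T ι} (ha : a ∈ as) (n : T × ι →₀ ℤ) :
    n - shift a.t n ∈ J as := AddSubgroup.subset_closure ⟨a, ha, n, rfl⟩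

/-- `J (a :: as)` splits -/
theorem J_cons {as : List (W T ι)} {a : W T ι} {x : T × ι →₀ ℤ} (hx : x ∈ J (a :: as)) :
    ∃ n, ∃ j ∈ J as, x = (n - shift a.t n) + j := by
  induction hx using AddSubgroup.closure_induction with
  | mem x hx =>
    obtain ⟨b, hb, n, rfl⟩ := hx
    rcases List.mem_cons.1 hb with rfl | hb
    · exact ⟨n, 0, (J as).zero_mem, by simp⟩
    · exact ⟨0, n - shift b.t n, J_sub hb n, by simp⟩
  | zero => exact ⟨0, 0, (J as).zero_mem, by simp⟩
  | add x y _ _ hx hy =>
    obtain ⟨n, j, hj, rfl⟩ := hx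
    obtain ⟨n', j', hj', rfl⟩ := hy
    exact ⟨n + n', j + j', (J as).add_mem hj hj', by rw [map_add]; abel⟩
  | neg x _ hx =>
    obtain ⟨n, j, hj, rfl⟩ := hx
    exact ⟨-n, -j, (J as).neg_mem hj, by rw [map_neg]; abel⟩

/-- the products of conjugacy classes of `W` -/
theorem mem_conjProd (as : List (W T ι)) (x : W T ι) :
    x ∈ conjProd as ↔ x.t = (as.map W.t).sum ∧
      ∃ c ∈ comb (as.map W.m), x.m - c ∈ J as := by
  induction as generalizing x with
  | nil =>
    constructor
    · intro hx
      have : x = 1 := hx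
      subst this
      exact ⟨by simp, 0, rfl, by simp⟩
    · rintro ⟨h1, c, hc, hJ⟩
      have hc0 : c = 0 := hc
      subst hc0
      have hJ0 : J ([] : List (W T ι)) = ⊥ := by
        rw [J, AddSubgroup.closure_eq_bot_iff]
        rintro y ⟨a, ha, _⟩
        simp at ha
      rw [hJ0, AddSubgroup.mem_bot, sub_zero] at hJ
      show x = 1
      ext1
      · simpa using h1
      · exact hJ
  | cons a as ih =>
    constructor
    · rintro ⟨g, z, hz, rfl⟩
      obtain ⟨h1, c, hc, hJ⟩ := (ih z).1 hz
      refine ⟨?_, shift g.t a.m + c, ⟨g.t, c, hc, rfl⟩, ?_⟩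
      · simp [h1]
      · have h2 : (g * a * g⁻¹ * z).m - (shift g.t a.m + c)
            = ((g.m - z.m) - shift a.t (g.m - z.m)) + (z.m - c) := by
          simp only [mul_m, mul_t, inv_m, inv_t, shift_shift, map_neg, map_sub]
          have e1 : g.t + a.t + -g.t = a.t := by abel
          rw [e1]
          abel
        rw [h2]
        apply (J _).add_mem
        · exact J_sub (by simp) _
        · exact J_mono (fun b hb => by simp [hb]) hJ
    · rintro ⟨h1, c', ⟨s, c, hc, rfl⟩, hJ⟩
      obtain ⟨n, j, hj, hn⟩ := J_cons hJ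
      -- z
      refine ⟨⟨s, n + (c + j)⟩, ⟨(as.map W.t).sum, c + j⟩, (ih _).2 ⟨rfl, c, hc, ?_⟩, ?_⟩
      · simpa using hj
      · ext1
        · simp only [mul_t, inv_t]
          rw [h1]
          simp
        · simp only [mul_m, mul_t, inv_m, inv_t, shift_shift, map_neg, map_add]
          have e1 : s + a.t + -s = a.t := by abel
          rw [e1]
          have e2 : x.m = (n - shift a.t n + j) + (shift s a.m + c) := by
            rw [← hn]; abel
          rw [e2]
          abel

end Pool.Agent.H96MB
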