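import Mathlib
import Pool.Agent.H96MB.Group
import Pool.Agent.H93RF.RF

set_option autoImplicit false
namespace Pool.Agent.H96MB
open Pool.Agent.H18PC

variable {T ι : Type*} [AddCommGroup T]

theorem shift_apply (s t : T) (i : ι) (y : T × ι →₀ ℤ) :
    shift s y (t, i) = y (t - s, i) := by
  have hinj : Function.Injective (fun p : T × ι => (s + p.1, p.2)) := by
    rintro ⟨a, b⟩ ⟨c, d⟩ h
    simp only [Prod.mk.injEq, add_right_inj] at h
    exact Prod.ext h.1 h.2
  have h := Finsupp.mapDomain_apply hinj y (t - s, i)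
  simp only [add_sub_cancel] at h
  exact h

theorem push_single (K : AddSubgroup T) (t : T) (i : ι) (n : ℤ) :
    push K (Finsupp.single (t, i) n) = Finsupp.single ((QuotientAddGroup.mk t : T ⧸ K), i) n := by
  simp [push, Finsupp.mapDomain.addMonoidHom]

theorem push_shift (K : AddSubgroup T) (s : T) (y : T × ι →₀ ℤ) :
    push K (shift s y) = shift (QuotientAddGroup.mk s : T ⧸ K) (push K y) := by
  show Finsupp.mapDomain _ (Finsupp.mapDomain _ y) = Finsupp.mapDomain _ (Finsupp.mapDomain _ y)
  rw [← Finsupp.mapDomain_comp, ← Finsupp.mapDomain_comp]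
  rfl

theorem push_shift_of_mem (K : AddSubgroup T) {s : T} (hs : s ∈ K) (y : T × ι →₀ ℤ) :
    push K (shift s y) = push K y := by
  rw [push_shift]
  have : (QuotientAddGroup.mk s : T ⧸ K) = 0 := (QuotientAddGroup.eq_zero_iff s).2 hs
  rw [this, shift_zero_left]

/-- the elements of `J` are in the kernel of `push K` -/
theorem push_J (K : AddSubgroup T) {as : List (W T ι)} (hK : ∀ a ∈ as, a.t ∈ K)
    {x : T × ι →₀ ℤ} (hx : x ∈ J as) : push K x = 0 := by
  have h : J as ≤ (push K : (T × ι →₀ ℤ) →+ _).ker := by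
    rw [J, AddSubgroup.closure_le]
    rintro y ⟨a, ha, n, rfl⟩
    show push K (n - shift a.t n) = 0
    rw [map_sub, push_shift_of_mem K (hK a ha), sub_self]
  exact h hx

/-- the kernel of `push S` is `J` -/
theorem mem_J_of_push (as : List (W T ι)) (x : T × ι →₀ ℤ)
    (hx : push (AddSubgroup.closure {t | ∃ a ∈ as, t = a.t}) x = 0) : x ∈ J as := by
  set S := AddSubgroup.closure {t : T | ∃ a ∈ as, t = a.t} with hS
  have h1 : ∀ s ∈ S, ∀ n : T × ι →₀ ℤ, n - shift s n ∈ J as := by
    intro s hs
    induction hs using AddSubgroup.closure_induction with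
    | mem s hs =>
      obtain ⟨a, ha, rfl⟩ := hs
      exact J_sub ha
    | zero => intro n; simp
    | add s t _ _ hs ht =>
      intro n
      have e : n - shift (s + t) n = (n - shift t n) + (shift t n - shift s (shift t n)) := by
        rw [shift_shift]; abel
      rw [e]
      exact (J as).add_mem (ht n) (hs _)
    | neg s _ hs =>
      intro n
      have e : n - shift (-s) n = -(shift (-s) n - shift s (shift (-s) n)) := by
        rw [shift_shift]; simp
      rw [e]
      exact (J as).neg_mem (hs _)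
  let r : T × ι → T × ι := fun p => (Quotient.out (QuotientAddGroup.mk p.1 : T ⧸ S), p.2)
  have h2 : ∀ y : T × ι →₀ ℤ, y - Finsupp.mapDomain r y ∈ J as := by
    intro y
    induction y using Finsupp.induction_linear with
    | zero => simp
    | add f g hf hg =>
      have e : f + g - Finsupp.mapDomain r (f + g)
          = (f - Finsupp.mapDomain r f) + (g - Finsupp.mapDomain r g) := by
        rw [Finsupp.mapDomain_add]; abel
      rw [e]
      exact (J as).add_mem hf hg
    | single p n =>
      obtain ⟨t, i⟩ := p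
      have h3 : (QuotientAddGroup.mk (Quotient.out (QuotientAddGroup.mk t : T ⧸ S)) : T ⧸ S)
          = QuotientAddGroup.mk t := QuotientAddGroup.out_eq' _
      have h4 : -t + Quotient.out (QuotientAddGroup.mk t : T ⧸ S) ∈ S :=
        QuotientAddGroup.eq.1 h3.symm
      have h5 := h1 _ h4 (Finsupp.single (t, i) n)
      rw [shift_single] at h5
      have h6 : -t + Quotient.out (QuotientAddGroup.mk t : T ⧸ S) + t
          = Quotient.out (QuotientAddGroup.mk t : T ⧸ S) := by abel
      rw [h6] at h5
      rw [Finsupp.mapDomain_single]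
      exact h5
  have h3 : Finsupp.mapDomain r x = 0 := by
    have e : Finsupp.mapDomain r x = Finsupp.mapDomain
        (fun q : (T ⧸ S) × ι => ((Quotient.out q.1 : T), q.2)) (push S x) := by
      show _ = Finsupp.mapDomain _ (Finsupp.mapDomain _ x)
      rw [← Finsupp.mapDomain_comp]
      rfl
    rw [e, hx, Finsupp.mapDomain_zero]
  have := h2 x
  rwa [h3, sub_zero] at this

theorem dvd_shift {m : ℤ} {y : T × ι →₀ ℤ} (h : ∀ q, m ∣ y q) (s : T) :
    ∀ q, m ∣ shift s y q := by
  rintro ⟨t, i⟩
  rw [shift_apply]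
  exact h _

/-- the congruence subgroup of `W` -/
noncomputable def Ker (K : AddSubgroup T) (m : ℕ) : Subgroup (W T ι) where
  carrier := {w | w.t ∈ K ∧ ∀ q, (m : ℤ) ∣ push K w.m q}
  one_mem' := ⟨K.zero_mem, by intro q; simp⟩
  mul_mem' := by
    rintro a b ⟨ha, ha'⟩ ⟨hb, hb'⟩
    refine ⟨K.add_mem ha hb, ?_⟩
    intro q
    rw [mul_m, map_add, push_shift_of_mem K ha, Finsupp.add_apply]
    exact dvd_add (ha' q) (hb' q)
  inv_mem' := by
    rintro a ⟨ha, ha'⟩
    refine ⟨K.neg_mem ha, ?_⟩
    intro q
    rw [inv_m, push_shift_of_mem K (K.neg_mem ha), map_neg, Finsupp.neg_apply]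
    exact (dvd_neg.2 (ha' q))

theorem mem_Ker {K : AddSubgroup T} {m : ℕ} {w : W T ι} :
    w ∈ Ker K m ↔ w.t ∈ K ∧ ∀ q, (m : ℤ) ∣ push K w.m q := Iff.rfl

theorem Ker_normal (K : AddSubgroup T) (m : ℕ) : (Ker K m : Subgroup (W T ι)).Normal := by
  constructor
  rintro w ⟨h1, h2⟩ g
  have ht : (g * w * g⁻¹).t = w.t := by simp
  refine ⟨by rw [ht]; exact h1, ?_⟩
  intro q
  have hm : push K (g * w * g⁻¹).m = shift (QuotientAddGroup.mk g.t : T ⧸ K) (push K w.m) := by
    have e : (g * w * g⁻¹).m = g.m + shift g.t w.m - shift w.t g.m := by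
      simp only [mul_m, mul_t, inv_m, shift_shift, map_neg]
      have e1 : g.t + w.t + -g.t = w.t := by abel
      rw [e1]
      abel
    rw [e, map_sub, map_add, push_shift_of_mem K h1, push_shift]
    abel
  rw [hm]
  exact dvd_shift h2 _ q

theorem Ker_finiteIndex [Finite ι] (K : AddSubgroup T) (hK : K.FiniteIndex) (m : ℕ) (hm : 0 < m) :
    (Ker K m : Subgroup (W T ι)).FiniteIndex := by
  haveI : NeZero m := ⟨hm.ne'⟩
  haveI : Finite (T ⧸ K) := AddSubgroup.finite_quotient_of_finiteIndex
  haveI : Finite (W T ι ⧸ (Ker K m : Subgroup (W T ι))) := by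
    let F : W T ι ⧸ (Ker K m : Subgroup (W T ι)) → (T ⧸ K) × ((T ⧸ K) × ι → ZMod m) :=
      fun x => (QuotientAddGroup.mk (Quotient.out x).t,
        fun q => ((push K (Quotient.out x).m q : ℤ) : ZMod m))
    apply Finite.of_injective F
    intro x y hxy
    have h1 : (QuotientAddGroup.mk (Quotient.out x).t : T ⧸ K)
        = QuotientAddGroup.mk (Quotient.out y).t := (Prod.ext_iff.1 hxy).1
    have h2 := fun q => congrFun (Prod.ext_iff.1 hxy).2 q
    rw [← QuotientGroup.out_eq' x, ← QuotientGroup.out_eq' y, QuotientGroup.eq]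
    refine ⟨?_, ?_⟩
    · exact QuotientAddGroup.eq.1 h1
    · intro q
      have e : ((Quotient.out x)⁻¹ * Quotient.out y).m
          = shift (-(Quotient.out x).t) ((Quotient.out y).m - (Quotient.out x).m) := by
        simp only [mul_m, inv_m, inv_t, map_sub, map_neg]
        abel
      rw [e, push_shift]
      apply dvd_shift
      intro q
      have h3 := h2 q
      simp only [F] at h3
      rw [map_sub, Finsupp.sub_apply]
      exact (ZMod.intCast_eq_intCast_iff_dvd_sub _ _ _).1 h3
  exact Subgroup.finiteIndex_of_finite_quotient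

end Pool.Agent.H96MB
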