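import Mathlib
import Pool.Agent.H96MB.PCW

set_option autoImplicit false
namespace Pool.Agent.H96MB
open Pool.Agent.H18PC

/-- the boundary of the edge `(t, j)` is `[t + γ j] - [t]` -/
noncomputable def bd {Γ ι : Type*} [AddCommGroup Γ] (γ : ι → Γ) : (Γ × ι →₀ ℤ) →+ (Γ →₀ ℤ) :=
  Finsupp.mapDomain.addMonoidHom (fun p : Γ × ι => p.1 + γ p.2)
    - Finsupp.mapDomain.addMonoidHom (fun p : Γ × ι => p.1)

/-- the Magnus condition -/
def IsMg {Γ ι : Type*} [AddCommGroup Γ] (γ : ι → Γ) (w : W Γ ι) : Prop :=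
  bd γ w.m = Finsupp.single w.t 1 - Finsupp.single 0 1

/-- the generators -/
noncomputable def E {Γ ι : Type*} [AddCommGroup Γ] (γ : ι → Γ) (j : ι) : W Γ ι :=
  ⟨γ j, Finsupp.single (0, j) 1⟩

end Pool.Agent.H96MB
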