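import Mathlib
import Pool.Agent.H96MB.PCW

set_option autoImplicit false
namespace Pool.Agent.H96MB
open Pool.Agent.H18PC

/-- the cover of a group `A T` with `A` normal abelian and `T` abelian -/
theorem exists_cover.{u} {H : Type u} [Group H] (A T : Subgroup H) (hAn : A.Normal)
    (hA : ∀ x ∈ A, ∀ y ∈ A, x * y = y * x) (hT : ∀ x ∈ T, ∀ y ∈ T, x * y = y * x)
    (hAT : ∀ x : H, ∃ a ∈ A, ∃ t ∈ T, x = a * t) (S : Finset H) :
    ∃ p : W (S →₀ ℤ) S →* H, ∀ x ∈ S, x ∈ p.range := by
  classical
  let iA : CommGroup A :=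
    { (inferInstance : Group A) with
      mul_comm := fun x y => Subtype.ext (hA x x.2 y y.2) }
  let iT : CommGroup T :=
    { (inferInstance : Group T) with
      mul_comm := fun x y => Subtype.ext (hT x x.2 y y.2) }
  choose a ha t ht hat using hAT
  let τ : (S →₀ ℤ) →+ Additive T := Finsupp.liftAddHom
    (fun b : S => zmultiplesHom (Additive T) (Additive.ofMul (⟨t b, ht b⟩ : T)))
  let th : (S →₀ ℤ) → H := fun s => ((Additive.toMul (τ s) : T) : H)
  have th_add : ∀ s s', th (s + s') = th s * th s' := by
    intro s s'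
    simp only [th, map_add]
    rfl
  have th_zero : th 0 = 1 := by
    simp only [th, map_zero]
    rfl
  let cj : H → (Additive A →+ Additive A) := fun h =>
    MonoidHom.toAdditive (MulAut.conjNormal h).toMonoidHom
  have cj_val : ∀ h x, ((Additive.toMul (cj h x) : A) : H)
      = h * ((Additive.toMul x : A) : H) * h⁻¹ := by
    intro h x
    exact MulAut.conjNormal_apply h (Additive.toMul x)
  let α : ((S →₀ ℤ) × S →₀ ℤ) →+ Additive A := Finsupp.liftAddHom
    (fun q : (S →₀ ℤ) × S => zmultiplesHom (Additive A)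
      (cj (th q.1) (Additive.ofMul (⟨a q.2, ha q.2⟩ : A))))
  have hshift : ∀ s y, α (shift s y) = cj (th s) (α y) := by
    intro s y
    induction y using Finsupp.induction_linear with
    | zero => simp
    | add f g hf hg => rw [map_add, map_add, hf, hg, map_add, map_add]
    | single q n =>
      obtain ⟨s', b⟩ := q
      rw [shift_single]
      simp only [α, Finsupp.liftAddHom_apply_single, zmultiplesHom_apply, map_zsmul]
      congr 1
      apply Additive.toMul.injective
      apply Subtype.ext
      rw [cj_val, cj_val, cj_val, th_add]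
      group
  let p : W (S →₀ ℤ) S →* H := MonoidHom.mk'
    (fun w => ((Additive.toMul (α w.m) : A) : H) * th w.t) (by
      intro x y
      have e1 : ((Additive.toMul (α (x * y).m) : A) : H)
          = ((Additive.toMul (α x.m) : A) : H) * (th x.t * ((Additive.toMul (α y.m) : A) : H)
            * (th x.t)⁻¹) := by
        rw [mul_m, map_add, hshift, ← cj_val]
        rfl
      simp only [e1, mul_t, th_add]
      group)
  refine ⟨p, ?_⟩
  intro x hx
  refine ⟨⟨Finsupp.single ⟨x, hx⟩ 1, Finsupp.single (0, ⟨x, hx⟩) 1⟩, ?_⟩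
  show ((Additive.toMul (α (Finsupp.single (0, ⟨x, hx⟩) 1)) : A) : H)
    * th (Finsupp.single ⟨x, hx⟩ 1) = x
  have h1 : ((Additive.toMul (α (Finsupp.single (0, ⟨x, hx⟩) 1)) : A) : H) = a x := by
    simp only [α, Finsupp.liftAddHom_apply_single, zmultiplesHom_apply, one_zsmul]
    rw [cj_val, th_zero]
    simp
  have h2 : th (Finsupp.single ⟨x, hx⟩ 1) = t x := by
    simp only [th, τ, Finsupp.liftAddHom_apply_single, zmultiplesHom_apply, one_zsmul]
    rfl
  rw [h1, h2]
  exact (hat x).symm

end Pool.Agent.H96MB
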