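import Mathlib
import Pool.Agent.H96MB.Magnus

set_option autoImplicit false
namespace Pool.Agent.H96MB
open Pool.Agent.H18PC

section

variable {Γ ι : Type*} [AddCommGroup Γ] (γ : ι → Γ)

/-- translation on `Z[Γ]` -/
noncomputable def sh (s : Γ) : (Γ →₀ ℤ) →+ (Γ →₀ ℤ) :=
  Finsupp.mapDomain.addMonoidHom (fun t : Γ => s + t)

theorem sh_single (s t : Γ) (n : ℤ) : sh s (Finsupp.single t n) = Finsupp.single (s + t) n := by
  simp [sh, Finsupp.mapDomain.addMonoidHom]

theorem bd_single (t : Γ) (j : ι) (n : ℤ) :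
    bd γ (Finsupp.single (t, j) n) = Finsupp.single (t + γ j) n - Finsupp.single t n := by
  simp [bd, Finsupp.mapDomain.addMonoidHom]

theorem bd_shift (s : Γ) (y : Γ × ι →₀ ℤ) : bd γ (shift s y) = sh s (bd γ y) := by
  induction y using Finsupp.induction_linear with
  | zero => simp
  | add f g hf hg => rw [map_add, map_add, map_add, map_add, hf, hg]
  | single q n =>
    obtain ⟨t, j⟩ := q
    rw [shift_single, bd_single, bd_single, map_sub, sh_single, sh_single, add_assoc]

theorem isMg_one : IsMg γ 1 := by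
  show bd γ 0 = _
  simp

theorem isMg_mul {x y : W Γ ι} (hx : IsMg γ x) (hy : IsMg γ y) : IsMg γ (x * y) := by
  unfold IsMg at *
  rw [mul_m, map_add, bd_shift, hx, hy, map_sub, sh_single, sh_single, mul_t, add_zero]
  abel

theorem isMg_inv {x : W Γ ι} (hx : IsMg γ x) : IsMg γ x⁻¹ := by
  unfold IsMg at *
  rw [inv_m, bd_shift, map_neg, hx, map_neg, map_sub, sh_single, sh_single, inv_t, add_zero,
    neg_add_cancel]
  abel

theorem isMg_E (j : ι) : IsMg γ (E γ j) := by
  show bd γ (Finsupp.single (0, j) 1) = Finsupp.single (γ j) 1 - Finsupp.single 0 1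
  rw [bd_single, zero_add]

/-- the group generated by the `E j` -/
noncomputable def MM : Subgroup (W Γ ι) := Subgroup.closure (Set.range (E γ))

theorem isMg_of_mem {x : W Γ ι} (hx : x ∈ MM γ) : IsMg γ x := by
  induction hx using Subgroup.closure_induction with
  | mem x hx => obtain ⟨j, rfl⟩ := hx; exact isMg_E γ j
  | one => exact isMg_one γ
  | mul x y _ _ hx hy => exact isMg_mul γ hx hy
  | inv x _ hx => exact isMg_inv γ hx

/-- the projection to the quotient by `S` -/
noncomputable def pw (S : AddSubgroup Γ) : W Γ ι →* W (Γ ⧸ S) ι :=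
  MonoidHom.mk' (fun w => ⟨(QuotientAddGroup.mk w.t : Γ ⧸ S), push S w.m⟩) (by
    intro a b
    ext1
    · rfl
    · simp only [mul_m, map_add, push_shift])

theorem pw_t (S : AddSubgroup Γ) (w : W Γ ι) : (pw S w).t = QuotientAddGroup.mk w.t := rfl
theorem pw_m (S : AddSubgroup Γ) (w : W Γ ι) : (pw S w).m = push S w.m := rfl

theorem pw_E (S : AddSubgroup Γ) (j : ι) :
    pw S (E γ j) = E (fun j => (QuotientAddGroup.mk (γ j) : Γ ⧸ S)) j := by
  ext1
  · rfl
  · rw [pw_m]
    exact push_single S 0 j 1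

theorem isMg_pw (S : AddSubgroup Γ) {x : W Γ ι} (hx : x ∈ MM γ) :
    IsMg (fun j => (QuotientAddGroup.mk (γ j) : Γ ⧸ S)) (pw S x) := by
  induction hx using Subgroup.closure_induction with
  | mem x hx => obtain ⟨j, rfl⟩ := hx; rw [pw_E]; exact isMg_E _ j
  | one => rw [map_one]; exact isMg_one _
  | mul x y _ _ hx hy => rw [map_mul]; exact isMg_mul _ hx hy
  | inv x _ hx => rw [map_inv]; exact isMg_inv _ hx

theorem exists_t (hγ : AddSubgroup.closure (Set.range γ) = ⊤) (σ : Γ) :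
    ∃ g ∈ MM γ, g.t = σ := by
  have hσ : σ ∈ AddSubgroup.closure (Set.range γ) := by rw [hγ]; trivial
  induction hσ using AddSubgroup.closure_induction with
  | mem σ hσ =>
    obtain ⟨j, rfl⟩ := hσ
    exact ⟨E γ j, Subgroup.subset_closure ⟨j, rfl⟩, rfl⟩
  | zero => exact ⟨1, (MM γ).one_mem, rfl⟩
  | add s t _ _ hs ht =>
    obtain ⟨g, hg, rfl⟩ := hs
    obtain ⟨g', hg', rfl⟩ := ht
    exact ⟨g * g', (MM γ).mul_mem hg hg', rfl⟩
  | neg s _ hs =>
    obtain ⟨g, hg, rfl⟩ := hs
    exact ⟨g⁻¹, (MM γ).inv_mem hg, rfl⟩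

/-- the elements with `t`-part in `S` -/
noncomputable def NN (S : AddSubgroup Γ) : Subgroup (MM γ) where
  carrier := {x | x.1.t ∈ S}
  one_mem' := S.zero_mem
  mul_mem' := fun ha hb => S.add_mem ha hb
  inv_mem' := fun ha => S.neg_mem ha

theorem mem_NN {S : AddSubgroup Γ} {x : MM γ} : x ∈ NN γ S ↔ x.1.t ∈ S := Iff.rfl

instance NN_normal (S : AddSubgroup Γ) : (NN γ S).Normal := by
  constructor
  intro n hn g
  rw [mem_NN] at hn ⊢
  have : (g * n * g⁻¹ : MM γ).1.t = n.1.t := by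
    show g.1.t + n.1.t + -g.1.t = n.1.t
    abel
  rw [this]; exact hn

end

end Pool.Agent.H96MB
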