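import Mathlib
import Pool.Agent.H96MB.Mg
import Pool.Agent.H57MG.L1
import Pool.Agent.H51MB.L2

set_option autoImplicit false
namespace Pool.Agent.H96MB
open Pool.Agent.H18PC

variable {Γ ι : Type*} [AddCommGroup Γ] (γ : ι → Γ)

/-- the Magnus injectivity -/
theorem mem_comm (hγ : AddSubgroup.closure (Set.range γ) = ⊤) (S : AddSubgroup Γ) (x : MM γ)
    (hxt : x.1.t ∈ S) (hxm : push S x.1.m = 0) : x ∈ ⁅NN γ S, NN γ S⁆ := by
  classical
  set C : Subgroup (MM γ) := ⁅NN γ S, NN γ S⁆ with hC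
  have hCn : C.Normal := Subgroup.commutator_normal _ _
  choose g hgM hgt using exists_t γ hγ
  let lM : Γ ⧸ S → MM γ := fun q => if q = 0 then 1 else ⟨g (Quotient.out q), hgM _⟩
  have hlM : ∀ q, (QuotientAddGroup.mk (lM q).1.t : Γ ⧸ S) = q := by
    intro q
    by_cases hq : q = 0
    · simp only [lM, hq]
      rfl
    · simp only [lM, if_neg hq, hgt]
      exact QuotientAddGroup.out_eq' q
  let A : Subgroup (MM γ ⧸ C) := (NN γ S).map (QuotientGroup.mk' C)
  have hAn : A.Normal := Subgroup.Normal.map inferInstance _ (QuotientGroup.mk'_surjective C)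
  have hA : ∀ a ∈ A, ∀ b ∈ A, a * b = b * a := by
    rintro _ ⟨a, ha, rfl⟩ _ ⟨b, hb, rfl⟩
    show (QuotientGroup.mk (a * b) : MM γ ⧸ C) = QuotientGroup.mk (b * a)
    rw [QuotientGroup.eq]
    have h1 := Subgroup.commutator_mem_commutator ((NN γ S).inv_mem hb) ((NN γ S).inv_mem ha)
    have h2 : (a * b)⁻¹ * (b * a) = b⁻¹ * a⁻¹ * b⁻¹⁻¹ * a⁻¹⁻¹ := by group
    rw [h2]
    exact h1
  have hmem : ∀ y : MM γ, (QuotientAddGroup.mk y.1.t : Γ ⧸ S) = 0 →
      (QuotientGroup.mk y : MM γ ⧸ C) ∈ A := by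
    intro y hy
    exact ⟨y, (QuotientAddGroup.eq_zero_iff _).1 hy, rfl⟩
  let EM : ι → MM γ := fun j => ⟨E γ j, Subgroup.subset_closure ⟨j, rfl⟩⟩
  obtain ⟨p, hp, hpE⟩ := Pool.Agent.H57MG.magnus (fun j => (QuotientAddGroup.mk (γ j) : Γ ⧸ S)) A hAn hA
    (fun j => (QuotientGroup.mk (EM j) : MM γ ⧸ C)) (fun q => (QuotientGroup.mk (lM q) : MM γ ⧸ C))
    (by simp only [lM, if_true]; rfl)
    (by
      intro s t
      apply hmem (lM s * lM t * (lM (s + t))⁻¹)
      show (QuotientAddGroup.mk ((lM s).1.t + (lM t).1.t + -(lM (s + t)).1.t) : Γ ⧸ S) = 0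
      rw [QuotientAddGroup.mk_add, QuotientAddGroup.mk_add, QuotientAddGroup.mk_neg, hlM, hlM, hlM]
      abel)
    (by
      intro j
      apply hmem (EM j * (lM _)⁻¹)
      show (QuotientAddGroup.mk (γ j + -(lM _).1.t) : Γ ⧸ S) = 0
      rw [QuotientAddGroup.mk_add, QuotientAddGroup.mk_neg, hlM]
      abel)
  have hp1 : p 1 = 1 := by
    have := hp 1 1 (isMg_one _) (isMg_one _)
    rw [mul_one] at this
    exact (mul_eq_left.1 this.symm)
  have hmain : ∀ y (hy : y ∈ MM γ), p (pw S y) = QuotientGroup.mk (⟨y, hy⟩ : MM γ) := by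
    intro y hy
    induction hy using Subgroup.closure_induction with
    | mem y hy =>
      obtain ⟨j, rfl⟩ := hy
      rw [pw_E]
      exact hpE j
    | one =>
      rw [map_one, hp1]
      rfl
    | mul y z hy hz ihy ihz =>
      rw [map_mul, hp _ _ (isMg_pw γ S hy) (isMg_pw γ S hz), ihy, ihz]
      rfl
    | inv y hy ihy =>
      have h1 := hp _ _ (isMg_pw γ S ((MM γ).inv_mem hy)) (isMg_pw γ S hy)
      rw [← map_mul, inv_mul_cancel, map_one, hp1, ihy] at h1
      have h2 : p (pw S y⁻¹) = (QuotientGroup.mk (⟨y, hy⟩ : MM γ) : MM γ ⧸ C)⁻¹ :=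
        eq_inv_of_mul_eq_one_left h1.symm
      rw [h2]
      rfl
  have h1 := hmain x.1 x.2
  have h2 : pw S x.1 = 1 := by
    ext1
    · exact (QuotientAddGroup.eq_zero_iff _).2 hxt
    · exact hxm
  rw [h2, hp1] at h1
  exact (QuotientGroup.eq_one_iff _).1 h1.symm

/-- the products of conjugacy classes of `M` -/
theorem mem_conjProd_M (hγ : AddSubgroup.closure (Set.range γ) = ⊤) (as : List (MM γ)) (x : MM γ)
    (ht : x.1.t = (as.map (fun a => a.1.t)).sum)
    (hc : ∃ c ∈ comb (as.map (fun a => a.1.m)),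
      push (AddSubgroup.closure {t | ∃ a ∈ as, t = a.1.t}) (x.1.m - c) = 0) :
    x ∈ conjProd as := by
  classical
  set S := AddSubgroup.closure {t | ∃ a ∈ as, t = a.1.t} with hS
  have haS : ∀ a ∈ as, a.1.t ∈ S := fun a ha => AddSubgroup.subset_closure ⟨a, ha, rfl⟩
  -- an element of the product with the same push
  have h1 : ∀ bs : List (MM γ), (∀ b ∈ bs, b.1.t ∈ S) →
      ∀ c ∈ comb (bs.map (fun a => a.1.m)), ∃ y ∈ conjProd bs,
        y.1.t = (bs.map (fun a => a.1.t)).sum ∧ push S y.1.m = push S c := by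
    intro bs
    induction bs with
    | nil =>
      intro _ c hc
      have : c = 0 := hc
      subst this
      exact ⟨1, rfl, rfl, rfl⟩
    | cons b bs ih =>
      rintro hbs c ⟨s, z, hz, rfl⟩
      obtain ⟨y, hy, hyt, hym⟩ := ih (fun b hb => hbs b (by simp [hb])) z hz
      obtain ⟨g, hg, hgt⟩ := exists_t γ hγ s
      refine ⟨⟨g, hg⟩ * b * ⟨g, hg⟩⁻¹ * y, ⟨_, y, hy, rfl⟩, ?_, ?_⟩
      · show g.t + b.1.t + -g.t + y.1.t = _
        rw [hyt]
        simp
      · have hb : b.1.t ∈ S := hbs b (by simp)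
        show push S (g * b.1 * g⁻¹ * y.1).m = _
        have e : (g * b.1 * g⁻¹ * y.1).m = (g.m - shift b.1.t g.m) + shift s b.1.m
            + shift b.1.t y.1.m := by
          simp only [mul_m, mul_t, inv_m, inv_t, shift_shift, map_neg, hgt]
          have e1 : s + b.1.t + -s = b.1.t := by abel
          rw [e1]
          abel
        rw [e, map_add, map_add, map_sub, push_shift_of_mem S hb, push_shift_of_mem S hb, hym,
          map_add]
        abel
  obtain ⟨c, hc, hxc⟩ := hc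
  obtain ⟨y, hy, hyt, hym⟩ := h1 as haS c hc
  have hxy : x.1.t = y.1.t := by rw [ht, hyt]
  have hu : x * y⁻¹ ∈ ⁅NN γ S, NN γ S⁆ := by
    apply mem_comm γ hγ S
    · show x.1.t + -y.1.t ∈ S
      rw [hxy, add_neg_cancel]
      exact S.zero_mem
    · show push S (x.1 * (y.1)⁻¹).m = 0
      rw [mul_m, inv_m, shift_shift, hxy, add_neg_cancel, shift_zero_left, map_add, map_neg, hym]
      rw [map_sub] at hxc
      rw [← hxc]
      abel
  let M0 : Subgroup (MM γ) := NN γ ⊥
  have hM0 : ∀ a ∈ M0, ∀ b ∈ M0, a * b = b * a := by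
    intro a ha b hb
    have ha' : a.1.t = 0 := (AddSubgroup.mem_bot).1 ha
    have hb' : b.1.t = 0 := (AddSubgroup.mem_bot).1 hb
    apply Subtype.ext
    show a.1 * b.1 = b.1 * a.1
    ext1
    · simp [ha', hb']
    · simp [ha', hb', add_comm]
  have hab : ∀ a b : MM γ, a * b * a⁻¹ * b⁻¹ ∈ M0 := by
    intro a b
    show a.1.t + b.1.t + -a.1.t + -b.1.t ∈ (⊥ : AddSubgroup Γ)
    rw [AddSubgroup.mem_bot]
    abel
  have hNN : NN γ S ≤ M0 ⊔ Subgroup.closure {a | a ∈ as} := by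
    intro z hz
    have h2 : ∀ s ∈ S, ∃ w ∈ Subgroup.closure {a | a ∈ as}, w.1.t = s := by
      intro s hs
      induction hs using AddSubgroup.closure_induction with
      | mem s hs =>
        obtain ⟨a, ha, rfl⟩ := hs
        exact ⟨a, Subgroup.subset_closure ha, rfl⟩
      | zero => exact ⟨1, Subgroup.one_mem _, rfl⟩
      | add s t _ _ hs ht =>
        obtain ⟨g, hg, rfl⟩ := hs
        obtain ⟨g', hg', rfl⟩ := ht
        exact ⟨g * g', Subgroup.mul_mem _ hg hg', rfl⟩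
      | neg s _ hs =>
        obtain ⟨g, hg, rfl⟩ := hs
        exact ⟨g⁻¹, Subgroup.inv_mem _ hg, rfl⟩
    obtain ⟨w, hw, hwt⟩ := h2 z.1.t hz
    have h3 : z * w⁻¹ ∈ M0 := by
      show z.1.t + -w.1.t ∈ (⊥ : AddSubgroup Γ)
      rw [hwt, add_neg_cancel]
      exact AddSubgroup.zero_mem _
    have h4 : z = (z * w⁻¹) * w := by group
    rw [h4]
    exact Subgroup.mul_mem _ (Subgroup.mem_sup_left h3) (Subgroup.mem_sup_right hw)
  have h5 : x * y⁻¹ ∈ ⁅M0 ⊔ Subgroup.closure {a | a ∈ as}, M0 ⊔ Subgroup.closure {a | a ∈ as}⁆ :=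
    Subgroup.commutator_mono hNN hNN hu
  have h6 := Pool.Agent.H51MB.conjProd_comm_mul M0 inferInstance hM0 hab as _ rfl y (x * y⁻¹) hy h5
  rwa [inv_mul_cancel_right] at h6

theorem conjProd_coe (as : List (MM γ)) (x : MM γ) (hx : x ∈ conjProd as) :
    (x : W Γ ι) ∈ conjProd (as.map (Subtype.val : MM γ → W Γ ι)) := by
  induction as generalizing x with
  | nil =>
    have : x = 1 := hx
    subst this
    rfl
  | cons a as ih =>
    obtain ⟨g, z, hz, rfl⟩ := hx
    exact ⟨g, z, ih z hz, rfl⟩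

/-- `PC` for the Magnus group -/
theorem pc_M (hγ : AddSubgroup.closure (Set.range γ) = ⊤) (hW : PC (W Γ ι)) : PC (MM γ) := by
  intro as x hx
  have hx' : (x : W Γ ι) ∉ conjProd (as.map (Subtype.val : MM γ → W Γ ι)) := by
    intro h
    obtain ⟨h1, c, hc, hJ⟩ := (mem_conjProd _ _).1 h
    apply hx
    apply mem_conjProd_M γ hγ as x
    · rw [h1, List.map_map]
      rfl
    · refine ⟨c, ?_, ?_⟩
      · rw [List.map_map] at hc
        exact hc
      · apply push_J _ _ hJ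
        intro a ha
        obtain ⟨b, hb, rfl⟩ := List.mem_map.1 ha
        exact AddSubgroup.subset_closure ⟨b, hb, rfl⟩
  obtain ⟨K, hKn, hKf, hK⟩ := hW _ _ hx'
  refine ⟨K.subgroupOf (MM γ), inferInstance, inferInstance, ?_⟩
  intro k hk hk'
  exact hK k hk (conjProd_coe γ as (x * k) hk')

end Pool.Agent.H96MB
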