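import Mathlib
import Pool.Agent.H96MB.PCW

set_option autoImplicit false
namespace Pool.Agent.H96MB
open Pool.Agent.H18PC

/-- the separation statement -/
def Sep (T ι : Type*) [AddCommGroup T] : Prop :=
  ∀ (S : AddSubgroup T) (us : List (T × ι →₀ ℤ)) (v : T × ι →₀ ℤ),
    (∀ K : AddSubgroup T, S ≤ K → K.FiniteIndex → ∀ m : ℕ, 0 < m →
      ∃ c ∈ comb us, ∀ q, (m : ℤ) ∣ push K (v - c) q) →
    ∃ c ∈ comb us, push S (v - c) = 0

/-- products of conjugacy classes of `W` are closed in the profinite topology -/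
theorem pc_of_sep {T ι : Type*} [AddCommGroup T] [Finite ι] (hsep : Sep T ι)
    (hres : ∀ d : T, d ≠ 0 → ∃ K : AddSubgroup T, K.FiniteIndex ∧ d ∉ K) : PC (W T ι) := by
  intro as x hx
  by_contra hcon
  push Not at hcon
  apply hx
  rw [mem_conjProd]
  have h1 : x.t = (as.map W.t).sum := by
    by_contra hne
    obtain ⟨K, hK, hd⟩ := hres (x.t - (as.map W.t).sum) (sub_ne_zero.2 hne)
    obtain ⟨k, hk, hk'⟩ := hcon (Ker K 1) (Ker_normal K 1) (Ker_finiteIndex K hK 1 one_pos)
    have h2 := ((mem_conjProd as _).1 hk').1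
    apply hd
    have h3 : x.t - (as.map W.t).sum = - k.t := by
      rw [← h2, mul_t]; abel
    rw [h3]
    exact K.neg_mem hk.1
  refine ⟨h1, ?_⟩
  set S := AddSubgroup.closure {t : T | ∃ a ∈ as, t = a.t} with hS
  obtain ⟨c, hc, hc'⟩ := hsep S (as.map W.m) x.m (by
    intro K hSK hK m hm
    obtain ⟨k, hk, hk'⟩ := hcon (Ker K m) (Ker_normal K m) (Ker_finiteIndex K hK m hm)
    obtain ⟨-, c, hc, hJ⟩ := (mem_conjProd as _).1 hk'
    refine ⟨c, hc, ?_⟩
    intro q
    have haK : ∀ a ∈ as, a.t ∈ K := fun a ha => hSK (AddSubgroup.subset_closure ⟨a, ha, rfl⟩)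
    have h2 := push_J K haK hJ
    have h3 : push K (x.m - c) = - push K (shift x.t k.m) := by
      have e : (x * k).m - c = (x.m - c) + shift x.t k.m := by
        rw [mul_m]; abel
      rw [e, map_add] at h2
      exact eq_neg_of_add_eq_zero_left h2
    rw [h3, Finsupp.neg_apply, dvd_neg, push_shift]
    exact dvd_shift hk.2 _ q)
  exact ⟨c, hc, mem_J_of_push as _ hc'⟩

/-- finitely generated abelian groups are residually finite -/
theorem residual (T : Type*) [AddCommGroup T] [AddGroup.FG T] (d : T) (hd : d ≠ 0) :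
    ∃ K : AddSubgroup T, K.FiniteIndex ∧ d ∉ K := by
  obtain ⟨K, -, hK, -, hd'⟩ := Pool.Agent.H93RF.rf (G := Multiplicative T)
    (by intro a b c; rw [mul_comm a b]; simp) ⊥ (Multiplicative.ofAdd d) (by
      rw [Subgroup.mem_bot]
      intro h
      exact hd (by simpa using h))
  refine ⟨Subgroup.toAddSubgroup' K, ?_, ?_⟩
  · constructor
    have h1 := hK.index_ne_zero
    have h2 : (Subgroup.toAddSubgroup' K).index = K.index := by
      rw [← AddSubgroup.index_toSubgroup]
      rfl
    rw [h2]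
    exact h1
  · exact hd'

end Pool.Agent.H96MB
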