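import Mathlib
import Pool.Agent.H96MB.Main

set_option autoImplicit false
namespace Pool.Agent.H96MB
open Pool.Agent.H18PC Filter

variable {T ι : Type*} [AddCommGroup T]

theorem push_apply (K : AddSubgroup T) (y : T × ι →₀ ℤ) (t : T) (i : ι) :
    push K y ((QuotientAddGroup.mk t : T ⧸ K), i) =
      open Classical in ∑ q ∈ y.support, if q.2 = i ∧ q.1 - t ∈ K then y q else 0 := by
  classical
  show Finsupp.mapDomain _ y _ = _
  rw [Finsupp.mapDomain, Finsupp.sum, Finsupp.finsetSum_apply]
  apply Finset.sum_congr rfl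
  rintro ⟨a, b⟩ _
  rw [Finsupp.single_apply]
  apply if_congr _ rfl rfl
  rw [Prod.mk.injEq]
  constructor
  · rintro ⟨h1, h2⟩
    refine ⟨h2, ?_⟩
    have := QuotientAddGroup.eq.1 h1.symm
    have e : a - t = -t + a := by abel
    rw [e]; exact this
  · rintro ⟨h1, h2⟩
    refine ⟨?_, h1⟩
    symm
    rw [QuotientAddGroup.eq]
    have e : -t + a = a - t := by abel
    rw [e]; exact h2

theorem push_shift_apply (K : AddSubgroup T) (s : T) (y : T × ι →₀ ℤ) (t : T) (i : ι) :
    push K (shift s y) ((QuotientAddGroup.mk t : T ⧸ K), i)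
      = push K y ((QuotientAddGroup.mk (t - s) : T ⧸ K), i) := by
  rw [push_shift, shift_apply]
  rfl

section

variable {I : Type*} (U : Ultrafilter I) (K : I → AddSubgroup T) (m : I → ℕ) (S : AddSubgroup T)
  (hSK : ∀ p, S ≤ K p) (hK : ∀ t, t ∉ S → ∀ᶠ p in (U : Filter I), t ∉ K p)
  (hm : ∀ z : ℤ, z ≠ 0 → ∀ᶠ p in (U : Filter I), ¬ ((m p : ℤ) ∣ z))

include hSK hK in
theorem push_eventually (y : T × ι →₀ ℤ) (t : T) (i : ι) :
    ∀ᶠ p in (U : Filter I), push (K p) y ((QuotientAddGroup.mk t : T ⧸ K p), i)
      = push S y ((QuotientAddGroup.mk t : T ⧸ S), i) := by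
  classical
  have h1 : ∀ᶠ p in (U : Filter I), ∀ q ∈ y.support, (q.1 - t ∈ K p ↔ q.1 - t ∈ S) := by
    rw [Filter.eventually_all_finset]
    intro q _
    by_cases h : q.1 - t ∈ S
    · exact Filter.Eventually.of_forall (fun p => ⟨fun _ => h, fun h' => hSK p h'⟩)
    · filter_upwards [hK _ h] with p hp
      exact ⟨fun h' => absurd h' hp, fun h' => absurd h' h⟩
  filter_upwards [h1] with p hp
  rw [push_apply, push_apply]
  apply Finset.sum_congr rfl
  intro q hq
  rw [hp q hq]

include hSK hK hm in
theorem sep_hom {J : Type*} [Fintype J] (w : J → (T × ι →₀ ℤ)) (σ : I → J → T)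
    (h : ∀ p q, (m p : ℤ) ∣ push (K p) (∑ j, shift (σ p j) (w j)) q) :
    ∃ d : J → T, push S (∑ j, shift (d j) (w j)) = 0 := by
  classical
  let R : J → J → Prop := fun j k => ∃ t, ∀ᶠ p in (U : Filter I), σ p j - σ p k - t ∈ K p
  let st : Setoid J :=
    { r := R
      iseqv := by
        refine ⟨?_, ?_, ?_⟩
        · intro j
          refine ⟨0, Filter.Eventually.of_forall (fun p => ?_)⟩
          simp only [sub_self]
          exact (K p).zero_mem
        · rintro j k ⟨t, ht⟩
          refine ⟨-t, ?_⟩
          filter_upwards [ht] with p hp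
          have e : σ p k - σ p j - -t = -(σ p j - σ p k - t) := by abel
          rw [e]
          exact (K p).neg_mem hp
        · rintro j k l ⟨t, ht⟩ ⟨t', ht'⟩
          refine ⟨t + t', ?_⟩
          filter_upwards [ht, ht'] with p hp hp'
          have e : σ p j - σ p l - (t + t') = (σ p j - σ p k - t) + (σ p k - σ p l - t') := by
            abel
          rw [e]
          exact (K p).add_mem hp hp' }
  let r : J → J := fun j => Quotient.out (Quotient.mk st j)
  have hr : ∀ j, R j (r j) := fun j => st.symm (Quotient.mk_out (s := st) j)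
  choose d hd using hr
  refine ⟨d, ?_⟩
  -- the claim for one class
  have hclass : ∀ (r0 : J) (t : T) (i : ι),
      ∑ j ∈ Finset.univ.filter (fun j => r j = r0),
        push S (w j) ((QuotientAddGroup.mk (t - d j) : T ⧸ S), i) = 0 := by
    intro r0 t i
    by_contra hz
    have hin : ∀ᶠ p in (U : Filter I), ∀ j ∈ Finset.univ.filter (fun j => r j = r0),
        push (K p) (shift (σ p j) (w j)) ((QuotientAddGroup.mk (σ p r0 + t) : T ⧸ K p), i)
          = push S (w j) ((QuotientAddGroup.mk (t - d j) : T ⧸ S), i) := by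
      rw [Filter.eventually_all_finset]
      intro j hj
      have hj' : r j = r0 := (Finset.mem_filter.1 hj).2
      filter_upwards [push_eventually U K S hSK hK (w j) (t - d j) i, hd j] with p h1 h2
      rw [← h1, push_shift_apply]
      have e : (QuotientAddGroup.mk (σ p r0 + t - σ p j) : T ⧸ K p)
          = QuotientAddGroup.mk (t - d j) := by
        rw [QuotientAddGroup.eq]
        rw [hj'] at h2
        have e : -(σ p r0 + t - σ p j) + (t - d j) = σ p j - σ p r0 - d j := by abel
        rw [e]
        exact h2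
      rw [e]
    have hout : ∀ᶠ p in (U : Filter I), ∀ j ∈ Finset.univ.filter (fun j => ¬ r j = r0),
        push (K p) (shift (σ p j) (w j)) ((QuotientAddGroup.mk (σ p r0 + t) : T ⧸ K p), i)
          = 0 := by
      by_cases hr0 : r r0 = r0
      swap
      · -- no member has root r0
        exfalso
        apply hz
        apply Finset.sum_eq_zero
        intro j hj
        exfalso
        apply hr0
        have hj' : r j = r0 := (Finset.mem_filter.1 hj).2
        show Quotient.out (Quotient.mk st r0) = r0
        rw [← hj']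
        show Quotient.out (Quotient.mk st (Quotient.out (Quotient.mk st j))) = _
        rw [Quotient.out_eq]
      rw [Filter.eventually_all_finset]
      intro j hj
      have hj' : ¬ r j = r0 := (Finset.mem_filter.1 hj).2
      have hnR : ¬ R j r0 := by
        intro hR
        apply hj'
        have : Quotient.mk st j = Quotient.mk st r0 := Quotient.sound hR
        show Quotient.out (Quotient.mk st j) = r0
        rw [this]
        exact hr0
      have h1 : ∀ᶠ p in (U : Filter I), ∀ q ∈ (w j).support,
          ¬ (σ p j - σ p r0 - (t - q.1) ∈ K p) := by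
        rw [Filter.eventually_all_finset]
        intro q _
        rw [Ultrafilter.eventually_not]
        intro h
        exact hnR ⟨_, h⟩
      filter_upwards [h1] with p hp
      rw [push_shift_apply, push_apply]
      apply Finset.sum_eq_zero
      intro q hq
      rw [if_neg]
      rintro ⟨-, h2⟩
      apply hp q hq
      have e : σ p j - σ p r0 - (t - q.1) = q.1 - (σ p r0 + t - σ p j) := by abel
      rw [e]
      exact h2
    have hall := (hin.and hout).and (hm _ hz)
    obtain ⟨p, ⟨h1, h2⟩, h3⟩ := hall.exists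
    apply h3
    have h4 := h p ((QuotientAddGroup.mk (σ p r0 + t) : T ⧸ K p), i)
    rw [map_sum, Finsupp.finsetSum_apply,
      ← Finset.sum_filter_add_sum_filter_not Finset.univ (fun j => r j = r0),
      Finset.sum_congr rfl h1, Finset.sum_eq_zero h2, add_zero] at h4
    exact h4
  ext ⟨t', i⟩
  obtain ⟨t, rfl⟩ := QuotientAddGroup.mk_surjective t'
  rw [map_sum, Finsupp.finsetSum_apply]
  rw [← Finset.sum_fiberwise Finset.univ r]
  show _ = (0 : ℤ)
  apply Finset.sum_eq_zero
  intro r0 _
  rw [← hclass r0 t i]
  apply Finset.sum_congr rfl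
  intro j _
  rw [push_shift_apply]

end

theorem mem_comb (us : List (T × ι →₀ ℤ)) (c : T × ι →₀ ℤ) :
    c ∈ comb us ↔ ∃ s : Fin us.length → T, c = ∑ i, shift (s i) (us.get i) := by
  induction us generalizing c with
  | nil =>
    constructor
    · intro h
      have : c = 0 := h
      exact ⟨fun _ => 0, by rw [this]; simp⟩
    · rintro ⟨s, rfl⟩
      show _ = _
      simp
  | cons u us ih =>
    constructor
    · rintro ⟨s, z, hz, rfl⟩
      obtain ⟨s', rfl⟩ := (ih z).1 hz
      refine ⟨(Fin.cons s s' : Fin (us.length + 1) → T), ?_⟩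
      refine Eq.trans ?_ (Fin.sum_univ_succ (n := us.length)
        (fun i : Fin (us.length + 1) =>
          shift ((Fin.cons s s' : Fin (us.length + 1) → T) i) ((u :: us).get i))).symm
      simp
    · rintro ⟨s, rfl⟩
      refine ⟨s (0 : Fin (us.length + 1)),
        ∑ i : Fin us.length, shift (s (Fin.succ i)) (us.get i),
        (ih _).2 ⟨fun i => s (Fin.succ i), rfl⟩, ?_⟩
      exact Fin.sum_univ_succ (n := us.length)
        (fun i : Fin (us.length + 1) => shift (s i) ((u :: us).get i))

/-- separation -/
theorem sep_of_residual (hres : ∀ (S : AddSubgroup T) (d : T), d ∉ S →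
    ∃ K : AddSubgroup T, K.FiniteIndex ∧ S ≤ K ∧ d ∉ K) : Sep T ι := by
  classical
  intro S us v h
  -- finite index subgroups avoiding finitely many elements
  have hB : ∀ B : Finset T, ∃ K : AddSubgroup T, K.FiniteIndex ∧ S ≤ K ∧
      ∀ b ∈ B, b ∉ S → b ∉ K := by
    intro B
    induction B using Finset.induction_on with
    | empty => exact ⟨⊤, inferInstance, le_top, by simp⟩
    | insert b B _ ih =>
      obtain ⟨K, h1, h2, h3⟩ := ih
      by_cases hb : b ∈ S
      · refine ⟨K, h1, h2, ?_⟩
        intro c hc hcS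
        rcases Finset.mem_insert.1 hc with rfl | hc
        · exact absurd hb hcS
        · exact h3 c hc hcS
      · obtain ⟨L, h4, h5, h6⟩ := hres S b hb
        refine ⟨K ⊓ L, inferInstance, le_inf h2 h5, ?_⟩
        intro c hc hcS hcK
        rcases Finset.mem_insert.1 hc with rfl | hc
        · exact h6 hcK.2
        · exact h3 c hc hcS hcK.1
  choose KK hKf hKS hKB using hB
  have hch : ∀ p : Finset T × ℕ, ∃ s : Fin us.length → T, ∀ q,
      ((p.2 + 1 : ℕ) : ℤ) ∣ push (KK p.1) (v - ∑ i, shift (s i) (us.get i)) q := by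
    intro p
    obtain ⟨c, hc, hc'⟩ := h (KK p.1) (hKS p.1) (hKf p.1) (p.2 + 1) (Nat.succ_pos _)
    obtain ⟨s, rfl⟩ := (mem_comb us c).1 hc
    exact ⟨s, hc'⟩
  choose s hs using hch
  let U : Ultrafilter (Finset T × ℕ) := Ultrafilter.of (atTop : Filter (Finset T × ℕ))
  have hU : ∀ p0 : Finset T × ℕ, ∀ᶠ p in (U : Filter (Finset T × ℕ)), p0 ≤ p := fun p0 =>
    (Ultrafilter.of_le (atTop : Filter (Finset T × ℕ))) (eventually_ge_atTop p0)
  obtain ⟨d, hd⟩ := sep_hom U (fun p => KK p.1) (fun p => p.2 + 1) S (fun p => hKS p.1)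
    (by
      intro t ht
      filter_upwards [hU ({t}, 0)] with p hp
      exact hKB p.1 t (hp.1 (by simp)) ht)
    (by
      intro z hz
      filter_upwards [hU (∅, z.natAbs)] with p hp hdvd
      have h1 : p.2 + 1 ∣ z.natAbs := Int.natCast_dvd.1 hdvd
      have h2 := Nat.le_of_dvd (Int.natAbs_pos.2 hz) h1
      have h3 : z.natAbs ≤ p.2 := hp.2
      omega)
    (J := Option (Fin us.length))
    (fun j => j.elim (-v) (fun i => us.get i))
    (fun p j => j.elim 0 (fun i => s p i))
    (by
      intro p q
      have e : (∑ j : Option (Fin us.length), shift (j.elim 0 (fun i => s p i))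
          (j.elim (-v) (fun i => us.get i))) = -(v - ∑ i, shift (s p i) (us.get i)) := by
        rw [Fintype.sum_option]
        simp only [Option.elim_none, Option.elim_some, map_neg, shift_zero_left]
        abel
      rw [e, map_neg, Finsupp.neg_apply, dvd_neg]
      exact hs p q)
  rw [Fintype.sum_option] at hd
  simp only [Option.elim_none, Option.elim_some, map_neg] at hd
  refine ⟨∑ i, shift (-(d none) + d (some i)) (us.get i), (mem_comb us _).2 ⟨_, rfl⟩, ?_⟩
  have e : v - ∑ i, shift (-(d none) + d (some i)) (us.get i)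
      = - shift (-(d none)) (- shift (d none) v + ∑ i, shift (d (some i)) (us.get i)) := by
    rw [map_add, map_neg, map_sum, shift_shift]
    simp only [shift_shift, neg_add_cancel, shift_zero_left]
    abel
  rw [e, map_neg, push_shift, hd, map_zero, neg_zero]

/-- residual finiteness of `T / S` -/
theorem residual' (T : Type*) [AddCommGroup T] [AddGroup.FG T] (S : AddSubgroup T) (d : T)
    (hd : d ∉ S) : ∃ K : AddSubgroup T, K.FiniteIndex ∧ S ≤ K ∧ d ∉ K := by
  obtain ⟨K, -, hK, hSK, hd'⟩ := Pool.Agent.H93RF.rf (G := Multiplicative T)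
    (by intro a b c; rw [mul_comm a b]; simp) (AddSubgroup.toSubgroup S)
    (Multiplicative.ofAdd d) hd
  refine ⟨Subgroup.toAddSubgroup' K, ?_, ?_, ?_⟩
  · constructor
    have h1 := hK.index_ne_zero
    have h2 : (Subgroup.toAddSubgroup' K).index = K.index := by
      rw [← AddSubgroup.index_toSubgroup]
      rfl
    rw [h2]
    exact h1
  · intro s hs
    exact hSK (x := Multiplicative.ofAdd s) hs
  · exact hd'

theorem pc_W (T : Type*) [AddCommGroup T] [AddGroup.FG T] (ι : Type*) [Finite ι] : PC (W T ι) :=
  pc_of_sep (sep_of_residual (residual' T)) (residual T)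

end Pool.Agent.H96MB
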