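import Mathlib
import Pool.Agent.H96MB.PCM
import Pool.Agent.H96MB.Sep
import Pool.Agent.H18PC.Cover

set_option autoImplicit false
namespace Pool.Agent.H96MB
open Pool.Agent.H18PC

/-- a metabelian group is covered, finite set by finite set, by Magnus groups -/
theorem exists_cover_M.{u} {H : Type u} [Group H] (A : Subgroup H) (hAn : A.Normal)
    (hA : ∀ x ∈ A, ∀ y ∈ A, x * y = y * x) (hab : ∀ x y : H, x * y * x⁻¹ * y⁻¹ ∈ A)
    (S : Finset H) :
    ∃ p : MM (fun b : S => (Finsupp.single b 1 : S →₀ ℤ)) →* H, ∀ x ∈ S, x ∈ p.range := by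
  classical
  set γ : S → (S →₀ ℤ) := fun b => Finsupp.single b 1 with hγ
  let iQ : CommGroup (H ⧸ A) :=
    { (inferInstance : Group (H ⧸ A)) with
      mul_comm := by
        intro x y
        obtain ⟨x, rfl⟩ := QuotientGroup.mk_surjective x
        obtain ⟨y, rfl⟩ := QuotientGroup.mk_surjective y
        show (QuotientGroup.mk (x * y) : H ⧸ A) = QuotientGroup.mk (y * x)
        rw [QuotientGroup.eq]
        have h1 := hab y⁻¹ x⁻¹
        have h2 : (x * y)⁻¹ * (y * x) = y⁻¹ * x⁻¹ * y⁻¹⁻¹ * x⁻¹⁻¹ := by group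
        rw [h2]
        exact h1 }
  let τ : (S →₀ ℤ) →+ Additive (H ⧸ A) := Finsupp.liftAddHom
    (fun b : S => zmultiplesHom (Additive (H ⧸ A))
      (Additive.ofMul (QuotientGroup.mk (b : H) : H ⧸ A)))
  let th : (S →₀ ℤ) → H ⧸ A := fun s => Additive.toMul (τ s)
  have th_add : ∀ s s', th (s + s') = th s * th s' := by
    intro s s'
    simp only [th, map_add]
    rfl
  have th_zero : th 0 = 1 := by
    simp only [th, map_zero]
    rfl
  have th_single : ∀ b : S, th (γ b) = QuotientGroup.mk (b : H) := by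
    intro b
    simp only [th, τ, γ, Finsupp.liftAddHom_apply_single, zmultiplesHom_apply, one_zsmul]
    rfl
  let lift : (S →₀ ℤ) → H := fun s => if s = 0 then 1 else Quotient.out (th s)
  have hlift : ∀ s, (QuotientGroup.mk (lift s) : H ⧸ A) = th s := by
    intro s
    by_cases hs : s = 0
    · simp only [lift, hs, if_true]
      rw [th_zero]
      rfl
    · simp only [lift, if_neg hs]
      exact QuotientGroup.out_eq' _
  obtain ⟨p, hp, hpE⟩ := Pool.Agent.H57MG.magnus γ A hAn hA (fun b : S => (b : H)) lift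
    (by simp only [lift, if_true])
    (by
      intro s t
      rw [← QuotientGroup.eq_one_iff]
      show (QuotientGroup.mk (lift s) : H ⧸ A) * QuotientGroup.mk (lift t)
        * (QuotientGroup.mk (lift (s + t)))⁻¹ = 1
      rw [hlift, hlift, hlift, th_add, mul_inv_cancel])
    (by
      intro b
      rw [← QuotientGroup.eq_one_iff]
      show (QuotientGroup.mk (b : H) : H ⧸ A) * (QuotientGroup.mk (lift (γ b)))⁻¹ = 1
      rw [hlift, th_single, mul_inv_cancel])
  refine ⟨MonoidHom.mk' (fun x => p x.1) (fun x y =>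
    hp x.1 y.1 (isMg_of_mem γ x.2) (isMg_of_mem γ y.2)), ?_⟩
  intro x hx
  exact ⟨⟨E γ ⟨x, hx⟩, Subgroup.subset_closure ⟨_, rfl⟩⟩, hpE ⟨x, hx⟩⟩

/-- **every metabelian group, with every bi-invariant metric** -/
theorem embeds_metabelian.{u} {H : Type u} [Group H] (A : Subgroup H) (hAn : A.Normal)
    (hA : ∀ x ∈ A, ∀ y ∈ A, x * y = y * x) (hab : ∀ x y : H, x * y * x⁻¹ * y⁻¹ ∈ A)
    {ρ : H → H → ℝ} (hρ : H71MU.BiMetric H ρ) :
    H71MU.EmbedsInFiniteUltraproduct H ρ := by
  apply embeds_of_cover hρ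
  intro S
  obtain ⟨p, hp⟩ := exists_cover_M A hAn hA hab S
  have hfg : AddGroup.FG (S →₀ ℤ) := Module.Finite.iff_addGroup_fg.1 inferInstance
  refine ⟨_, inferInstance, p, hp, pc_M _ ?_ (pc_W (S →₀ ℤ) S)⟩
  rw [eq_top_iff]
  intro s _
  induction s using Finsupp.induction_linear with
  | zero => exact AddSubgroup.zero_mem _
  | add f g hf hg => exact AddSubgroup.add_mem _ (hf trivial) (hg trivial)
  | single b n =>
    have h1 : (Finsupp.single b n : S →₀ ℤ) = n • Finsupp.single b 1 := by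
      rw [Finsupp.smul_single]; simp
    rw [h1]
    have h2 : (Finsupp.single b 1 : S →₀ ℤ) ∈
        AddSubgroup.closure (Set.range (fun b : S => (Finsupp.single b 1 : S →₀ ℤ))) :=
      AddSubgroup.subset_closure (Set.mem_range_self b)
    exact AddSubgroup.zsmul_mem _ h2 n

end Pool.Agent.H96MB
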