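import Mathlib
import Pool.Agent.H96MB.Metab

set_option autoImplicit false
namespace Pool.Agent.H96MB
open Pool.Agent.H18PC

/-- the generators of `Z[S]` -/
noncomputable def gam (S : Type*) : S → (S →₀ ℤ) := fun b => Finsupp.single b 1

theorem gam_top (S : Type*) : AddSubgroup.closure (Set.range (gam S)) = ⊤ := by
  classical
  rw [eq_top_iff]
  intro s _
  induction s using Finsupp.induction_linear with
  | zero => exact AddSubgroup.zero_mem _
  | add f g hf hg => exact AddSubgroup.add_mem _ (hf trivial) (hg trivial)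
  | single b n =>
    have h1 : (Finsupp.single b n : S →₀ ℤ) = n • gam S b := by
      rw [gam, Finsupp.smul_single]; simp
    have h2 : gam S b ∈ AddSubgroup.closure (Set.range (gam S)) :=
      AddSubgroup.subset_closure (Set.mem_range_self b)
    rw [h1]
    exact AddSubgroup.zsmul_mem _ h2 n

/-- the generators of the Magnus group -/
noncomputable def gen (S : Type*) (s : S) : MM (gam S) :=
  ⟨E (gam S) s, Subgroup.subset_closure ⟨s, rfl⟩⟩

theorem gen_top (S : Type*) : Subgroup.closure (Set.range (gen S)) = ⊤ := by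
  have h := Subgroup.closure_closure_coe_preimage (k := Set.range (E (gam S)))
  have e : Set.range (gen S) = ((↑) : MM (gam S) → W (S →₀ ℤ) S) ⁻¹' Set.range (E (gam S)) := by
    ext x
    constructor
    · rintro ⟨s, rfl⟩
      exact ⟨s, rfl⟩
    · rintro ⟨s, hs⟩
      exact ⟨s, Subtype.ext hs⟩
  rw [e]
  exact h

/-- the Magnus group is metabelian -/
theorem metabelian_MM (S : Type*) : ∀ x ∈ commutator (MM (gam S)), ∀ y ∈ commutator (MM (gam S)),
    x * y = y * x := by
  have h0 : commutator (MM (gam S)) ≤ NN (gam S) ⊥ := by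
    rw [commutator_def, Subgroup.commutator_le]
    intro a _ b _
    show a.1.t + b.1.t + -a.1.t + -b.1.t ∈ (⊥ : AddSubgroup (S →₀ ℤ))
    rw [AddSubgroup.mem_bot]
    abel
  intro a ha b hb
  have ha' : a.1.t = 0 := (AddSubgroup.mem_bot).1 (h0 ha)
  have hb' : b.1.t = 0 := (AddSubgroup.mem_bot).1 (h0 hb)
  apply Subtype.ext
  show a.1 * b.1 = b.1 * a.1
  ext1
  · simp [ha', hb']
  · simp [ha', hb', add_comm]

/-- the universal property of the Magnus group -/
theorem univ_MM (S : Type*) {H : Type*} [Group H]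
    (hmet : ∀ x ∈ commutator H, ∀ y ∈ commutator H, x * y = y * x) (h : S → H) :
    ∃ p : MM (gam S) →* H, ∀ s, p (gen S s) = h s := by
  classical
  set A : Subgroup H := commutator H with hAdef
  have hab : ∀ x y : H, x * y * x⁻¹ * y⁻¹ ∈ A := fun x y =>
    Subgroup.commutator_mem_commutator (Subgroup.mem_top x) (Subgroup.mem_top y)
  let iQ : CommGroup (H ⧸ A) :=
    { (inferInstance : Group (H ⧸ A)) with
      mul_comm := by
        intro x y
        obtain ⟨x, rfl⟩ := QuotientGroup.mk_surjective x
        obtain ⟨y, rfl⟩ := QuotientGroup.mk_surjective y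
        show (QuotientGroup.mk (x * y) : H ⧸ A) = QuotientGroup.mk (y * x)
        rw [QuotientGroup.eq]
        have h1 := hab y⁻¹ x⁻¹
        have h2 : (x * y)⁻¹ * (y * x) = y⁻¹ * x⁻¹ * y⁻¹⁻¹ * x⁻¹⁻¹ := by group
        rw [h2]
        exact h1 }
  let τ : (S →₀ ℤ) →+ Additive (H ⧸ A) := Finsupp.liftAddHom
    (fun b : S => zmultiplesHom (Additive (H ⧸ A))
      (Additive.ofMul (QuotientGroup.mk (h b) : H ⧸ A)))
  let th : (S →₀ ℤ) → H ⧸ A := fun s => Additive.toMul (τ s)
  have th_add : ∀ s s', th (s + s') = th s * th s' := by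
    intro s s'
    simp only [th, map_add]
    rfl
  have th_zero : th 0 = 1 := by
    simp only [th, map_zero]
    rfl
  have th_single : ∀ b : S, th (gam S b) = QuotientGroup.mk (h b) := by
    intro b
    simp only [th, τ, gam, Finsupp.liftAddHom_apply_single, zmultiplesHom_apply, one_zsmul]
    rfl
  let lift : (S →₀ ℤ) → H := fun s => if s = 0 then 1 else Quotient.out (th s)
  have hlift : ∀ s, (QuotientGroup.mk (lift s) : H ⧸ A) = th s := by
    intro s
    by_cases hs : s = 0
    · simp only [lift, hs, if_true]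
      rw [th_zero]
      rfl
    · simp only [lift, if_neg hs]
      exact QuotientGroup.out_eq' _
  obtain ⟨p, hp, hpE⟩ := Pool.Agent.H57MG.magnus (gam S) A inferInstance hmet h lift
    (by simp only [lift, if_true])
    (by
      intro s t
      rw [← QuotientGroup.eq_one_iff]
      show (QuotientGroup.mk (lift s) : H ⧸ A) * QuotientGroup.mk (lift t)
        * (QuotientGroup.mk (lift (s + t)))⁻¹ = 1
      rw [hlift, hlift, hlift, th_add, mul_inv_cancel])
    (by
      intro b
      rw [← QuotientGroup.eq_one_iff]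
      show (QuotientGroup.mk (h b) : H ⧸ A) * (QuotientGroup.mk (lift (gam S b)))⁻¹ = 1
      rw [hlift, th_single, mul_inv_cancel])
  exact ⟨MonoidHom.mk' (fun x => p x.1) (fun x y =>
    hp x.1 y.1 (isMg_of_mem (gam S) x.2) (isMg_of_mem (gam S) y.2)), fun s => hpE s⟩

/-- `PC` for the Magnus group -/
theorem pc_MM (S : Type*) [Finite S] : PC (MM (gam S)) := by
  have hfg : AddGroup.FG (S →₀ ℤ) := Module.Finite.iff_addGroup_fg.1 inferInstance
  exact pc_M _ (gam_top S) (pc_W (S →₀ ℤ) S)

end Pool.Agent.H96MB
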