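import Mathlib
import Pool.Agent.H96MB.Free
import Pool.Agent.H18PC.Cover

set_option autoImplicit false

namespace Pool.Agent.H96MB

open H71MU Filter Topology Pool.Agent.H18PC

universe u

/-- `H` is metabelian: its commutator subgroup is abelian. -/
def Metabelian (H : Type*) [Group H] : Prop :=
  ∀ x ∈ commutator H, ∀ y ∈ commutator H, x * y = y * x

/-- `G` with the function `ρ` is isometrically isomorphic to a subgroup of a metric ultraproduct
of finite metabelian groups with bi-invariant metrics. -/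
def EmbedsInFiniteMetabelianUltraproduct (G : Type u) [Group G] (ρ : G → G → ℝ) : Prop :=
  ∃ (ι : Type u) (H : ι → Type u) (_ : ∀ i, Group (H i)) (_ : ∀ i, Finite (H i))
    (_ : ∀ i, Metabelian (H i))
    (d : ∀ i, H i → H i → ℝ) (hd : ∀ i, BiMetric (H i) (d i)) (U : Ultrafilter ι)
    (φ : G →* Ultraproduct U d hd),
    Function.Injective φ ∧ ∀ x y, udist U d hd (φ x) (φ y) = ρ x y

/-- The approximate embedding criterion. -/
theorem embeds_of_approx_met {G : Type u} [Group G] {ρ : G → G → ℝ} (hρ : BiMetric G ρ)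
    (hloc : ∀ (B : Finset G) (n : ℕ), ∃ (F : Type u) (_ : Group F) (_ : Finite F) (_ : Metabelian F)
      (dF : F → F → ℝ) (_ : BiMetric F dF) (f : G → F),
      (∀ x, dF (f x) 1 ≤ ρ x 1 + 1) ∧
      (∀ x ∈ B, ∀ y ∈ B, x * y ∈ B → dF (f (x * y)) (f x * f y) ≤ 1 / ((n : ℝ) + 1)) ∧
      (∀ x ∈ B, ∀ y ∈ B, |dF (f x) (f y) - ρ x y| ≤ 1 / ((n : ℝ) + 1))) :
    EmbedsInFiniteMetabelianUltraproduct G ρ := by
  classical
  have hloc' : ∀ i : Finset G × ℕ, ∃ (F : Type u) (_ : Group F) (_ : Finite F) (_ : Metabelian F)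
      (dF : F → F → ℝ) (_ : BiMetric F dF) (f : G → F),
      (∀ x, dF (f x) 1 ≤ ρ x 1 + 1) ∧
      (∀ x ∈ i.1, ∀ y ∈ i.1, x * y ∈ i.1 →
        dF (f (x * y)) (f x * f y) ≤ 1 / ((i.2 : ℝ) + 1)) ∧
      (∀ x ∈ i.1, ∀ y ∈ i.1, |dF (f x) (f y) - ρ x y| ≤ 1 / ((i.2 : ℝ) + 1)) :=
    fun i => hloc i.1 i.2
  choose F iF finF metF dF hdF f hf1 hf2 hf3 using hloc'
  let U : Ultrafilter (Finset G × ℕ) := Ultrafilter.of (atTop : Filter (Finset G × ℕ))
  have hUle : (U : Filter (Finset G × ℕ)) ≤ atTop := Ultrafilter.of_le _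
  have hU : ∀ B : Finset G, ∀ᶠ A in (U : Filter (Finset G × ℕ)), B ⊆ A.1 := by
    intro B
    have h1 : ∀ᶠ A : Finset G × ℕ in atTop, (B, 0) ≤ A := eventually_ge_atTop _
    filter_upwards [hUle h1] with A hA
    exact hA.1
  have hsnd : Tendsto (fun i : Finset G × ℕ => i.2) (U : Filter (Finset G × ℕ)) atTop := by
    have h1 : Tendsto (fun i : Finset G × ℕ => i.2) atTop atTop := by
      rw [← prod_atTop_atTop_eq]
      exact tendsto_snd
    exact h1.mono_left hUle
  have hsmall : Tendsto (fun i : Finset G × ℕ => 1 / ((i.2 : ℝ) + 1))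
      (U : Filter (Finset G × ℕ)) (𝓝 0) :=
    tendsto_one_div_add_atTop_nhds_zero_nat.comp hsnd
  let fam : G → Bounded dF hdF := fun x => ⟨fun B => f B x, ⟨ρ x 1 + 1, fun B => hf1 B x⟩⟩
  have hdist : ∀ x y, udist U dF hdF (QuotientGroup.mk (fam x)) (QuotientGroup.mk (fam y))
      = ρ x y := by
    intro x y
    have h1 := tendsto_udist U dF hdF (fam x) (fam y)
    have h2 : Tendsto (fun i => dF i ((fam x).1 i) ((fam y).1 i) - ρ x y)
        (U : Filter (Finset G × ℕ)) (𝓝 0) := by
      refine squeeze_zero_norm' ?_ hsmall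
      filter_upwards [hU {x, y}] with A hA
      rw [Real.norm_eq_abs]
      exact hf3 A x (hA (by simp)) y (hA (by simp))
    have h3 : Tendsto (fun i => dF i ((fam x).1 i) ((fam y).1 i))
        (U : Filter (Finset G × ℕ)) (𝓝 (ρ x y)) := by
      have h4 := h2.add_const (ρ x y)
      simpa using h4
    exact tendsto_nhds_unique h1 h3
  have hmul : ∀ x y, (QuotientGroup.mk (fam (x * y)) : Ultraproduct U dF hdF)
      = QuotientGroup.mk (fam x) * QuotientGroup.mk (fam y) := by
    intro x y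
    rw [← QuotientGroup.mk_mul, QuotientGroup.eq, mem_Null]
    refine squeeze_zero' (Filter.Eventually.of_forall fun i => (hdF i).nonneg _ _) ?_ hsmall
    filter_upwards [hU {x, y, x * y}] with A hA
    have h1 := hf2 A x (hA (by simp)) y (hA (by simp)) (hA (by simp))
    have h2 : dF A (((fam (x * y))⁻¹ * (fam x * fam y)).1 A) 1
        = dF A (f A (x * y)) (f A x * f A y) := by
      rw [(hdF A).eq_left (f A (x * y))]
      rfl
    rw [h2]
    exact h1
  let φ : G →* Ultraproduct U dF hdF := MonoidHom.mk' (fun x => QuotientGroup.mk (fam x)) hmul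
  refine ⟨Finset G × ℕ, F, iF, finF, metF, dF, hdF, U, φ, ?_, hdist⟩
  intro x y hxy
  have h1 := hdist x y
  have h2 := hdist y y
  have h3 : (QuotientGroup.mk (fam x) : Ultraproduct U dF hdF) = QuotientGroup.mk (fam y) := hxy
  rw [h3, h2, hρ.self] at h1
  exact (hρ.eq_zero_iff x y).1 h1.symm

theorem metabelian_quot {W : Type*} [Group W] (hW : Metabelian W) (K : Subgroup W) [K.Normal] :
    Metabelian (W ⧸ K) := by
  have h1 : commutator (W ⧸ K) ≤ (commutator W).map (QuotientGroup.mk' K) := by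
    rw [commutator_def, Subgroup.commutator_le]
    intro a _ b _
    obtain ⟨a, rfl⟩ := QuotientGroup.mk_surjective a
    obtain ⟨b, rfl⟩ := QuotientGroup.mk_surjective b
    refine ⟨a * b * a⁻¹ * b⁻¹, ?_, rfl⟩
    exact Subgroup.commutator_mem_commutator (Subgroup.mem_top a) (Subgroup.mem_top b)
  intro x hx y hy
  obtain ⟨x, hx', rfl⟩ := h1 hx
  obtain ⟨y, hy', rfl⟩ := h1 hy
  rw [← map_mul, ← map_mul, hW x hx' y hy']

theorem commutator_map_mem {W H : Type*} [Group W] [Group H] (p : W →* H) {x : W}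
    (hx : x ∈ commutator W) : p x ∈ commutator H := by
  have h1 : commutator W ≤ (commutator H).comap p := by
    rw [commutator_def, Subgroup.commutator_le]
    intro a _ b _
    show p (a * b * a⁻¹ * b⁻¹) ∈ commutator H
    rw [map_mul, map_mul, map_mul, map_inv, map_inv]
    exact Subgroup.commutator_mem_commutator (Subgroup.mem_top _) (Subgroup.mem_top _)
  exact h1 hx

theorem metabelian_of_injective {W H : Type*} [Group W] [Group H] (p : W →* H)
    (hp : Function.Injective p) (hH : Metabelian H) : Metabelian W := by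
  intro x hx y hy
  apply hp
  rw [map_mul, map_mul]
  exact hH _ (commutator_map_mem p hx) _ (commutator_map_mem p hy)

/-- the easy direction -/
theorem metabelian_of_embeds {G : Type u} [Group G] {ρ : G → G → ℝ}
    (h : EmbedsInFiniteMetabelianUltraproduct G ρ) : Metabelian G := by
  obtain ⟨ι, H, iG, -, hm, d, hd, U, φ, hφ, -⟩ := h
  apply metabelian_of_injective φ hφ
  apply metabelian_quot
  intro x hx y hy
  apply Subtype.ext
  funext i
  have h1 : ∀ z : Bounded d hd, z ∈ commutator (Bounded d hd) → z.1 i ∈ commutator (H i) := by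
    intro z hz
    exact commutator_map_mem ((Pi.evalMonoidHom H i).comp (Bounded d hd).subtype) hz
  exact hm i _ (h1 x hx) _ (h1 y hy)

/-- the cover lemma -/
theorem embeds_of_cover_met {H : Type u} [Group H] {ρ : H → H → ℝ} (hρ : BiMetric H ρ)
    (hc : ∀ S : Finset H, ∃ (W : Type u) (_ : Group W) (p : W →* H),
      (∀ s ∈ S, s ∈ p.range) ∧ PC W ∧ Metabelian W) :
    EmbedsInFiniteMetabelianUltraproduct H ρ := by
  classical
  apply embeds_of_approx_met hρ
  intro B n
  obtain ⟨W, iW, p, hp, hPC, hmet⟩ := hc B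
  set ε : ℝ := 1 / ((n : ℝ) + 1) with hεdef
  have hε : 0 < ε := by rw [hεdef]; positivity
  have hε1 : ε ≤ 1 := by
    rw [hεdef, div_le_one (by positivity)]
    have : (0 : ℝ) ≤ n := Nat.cast_nonneg n
    linarith
  have hlift : ∀ b : H, ∃ w : W, b ∈ B → p w = b := by
    intro b
    by_cases hb : b ∈ B
    · obtain ⟨w, hw⟩ := hp b hb
      exact ⟨w, fun _ => hw⟩
    · exact ⟨1, fun h => absurd h hb⟩
  choose σ hσ using hlift
  have hρW := biMetric_cover hρ p hε
  set ρW : W → W → ℝ := fun x y => ρ (p x) (p y) + if x = y then 0 else ε with hρWdef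
  let BW : Finset W := insert 1 (B.image σ ∪ Finset.image₂ (fun x y => σ x * σ y) B B)
  let A : Finset W := (Finset.image₂ (fun x y => x * y⁻¹) BW BW).erase 1
  have hA1 : (1 : W) ∉ A := Finset.notMem_erase _ _
  have hAmem : ∀ x y : W, x ∈ BW → y ∈ BW → x ≠ y → x * y⁻¹ ∈ A := by
    intro x y hx hy hxy
    rw [Finset.mem_erase]
    refine ⟨fun h => hxy (mul_inv_eq_one.1 h), ?_⟩
    exact Finset.mem_image₂_of_mem hx hy
  have hAinv : ∀ a ∈ A, a⁻¹ ∈ A := by
    intro a ha
    rw [Finset.mem_erase] at ha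
    obtain ⟨h1, h2⟩ := ha
    obtain ⟨x, hx, y, hy, rfl⟩ := Finset.mem_image₂.1 h2
    have h3 : (x * y⁻¹)⁻¹ = y * x⁻¹ := by group
    rw [h3]
    apply hAmem y x hy hx
    rintro rfl
    exact h1 (by group)
  obtain ⟨K, hKn, hKf, dF, hdF, hdA⟩ := exists_quot hPC hρW A hA1 hAinv
  have hd : ∀ x ∈ BW, ∀ y ∈ BW,
      dF (QuotientGroup.mk x : W ⧸ K) (QuotientGroup.mk y) = ρW x y := by
    intro x hx y hy
    by_cases hxy : x = y
    · subst hxy
      rw [hdF.self, hρW.self]
    · have h2 := hdA _ (hAmem x y hx hy hxy)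
      have h3 := hdF.right (QuotientGroup.mk y)⁻¹ (QuotientGroup.mk x : W ⧸ K)
        (QuotientGroup.mk y)
      rw [mul_inv_cancel] at h3
      rw [← h3]
      have h4 : (QuotientGroup.mk x : W ⧸ K) * (QuotientGroup.mk y)⁻¹
          = QuotientGroup.mk (x * y⁻¹) := rfl
      rw [h4, h2]
      have h5 := hρW.right y (x * y⁻¹) 1
      rw [inv_mul_cancel_right, one_mul] at h5
      exact h5.symm
  have hσmem : ∀ b ∈ B, σ b ∈ BW := by
    intro b hb
    exact Finset.mem_insert_of_mem (Finset.mem_union_left _ (Finset.mem_image_of_mem _ hb))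
  have hσmem2 : ∀ b ∈ B, ∀ c ∈ B, σ b * σ c ∈ BW := by
    intro b hb c hc'
    exact Finset.mem_insert_of_mem (Finset.mem_union_right _
      (Finset.mem_image₂_of_mem hb hc'))
  have h1mem : (1 : W) ∈ BW := Finset.mem_insert_self _ _
  have hif : ∀ x y : W, 0 ≤ (if x = y then (0 : ℝ) else ε) ∧ (if x = y then (0 : ℝ) else ε) ≤ ε := by
    intro x y
    by_cases h : x = y
    · simp [h, hε.le]
    · simp [h, hε.le]
  refine ⟨W ⧸ K, inferInstance, inferInstance, metabelian_quot hmet K, dF, hdF,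
    fun x => if x ∈ B then (QuotientGroup.mk (σ x) : W ⧸ K) else 1, ?_, ?_, ?_⟩
  · intro x
    by_cases hx : x ∈ B
    · simp only [if_pos hx]
      have h2 := hd (σ x) (hσmem x hx) 1 h1mem
      have h3 : (QuotientGroup.mk (1 : W) : W ⧸ K) = 1 := rfl
      rw [h3] at h2
      rw [h2, hρWdef]
      simp only [map_one, hσ x hx]
      have := (hif (σ x) 1).2
      linarith
    · simp only [if_neg hx]
      rw [hdF.self]
      have := hρ.nonneg x 1
      linarith
  · intro x hx y hy hxy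
    simp only [if_pos hx, if_pos hy, if_pos hxy]
    have h2 := hd (σ (x * y)) (hσmem _ hxy) (σ x * σ y) (hσmem2 x hx y hy)
    have h3 : (QuotientGroup.mk (σ x * σ y) : W ⧸ K)
        = QuotientGroup.mk (σ x) * QuotientGroup.mk (σ y) := rfl
    rw [h3] at h2
    rw [h2, hρWdef]
    simp only [map_mul, hσ x hx, hσ y hy, hσ (x * y) hxy, hρ.self]
    have := (hif (σ (x * y)) (σ x * σ y)).2
    linarith
  · intro x hx y hy
    simp only [if_pos hx, if_pos hy]
    rw [hd (σ x) (hσmem x hx) (σ y) (hσmem y hy), hρWdef]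
    simp only [hσ x hx, hσ y hy]
    obtain ⟨h1, h2⟩ := hif (σ x) (σ y)
    rw [abs_le]
    constructor <;> linarith

/-- every metabelian group with every bi-invariant metric -/
theorem embeds_met {H : Type u} [Group H] (hH : Metabelian H) {ρ : H → H → ℝ}
    (hρ : BiMetric H ρ) : EmbedsInFiniteMetabelianUltraproduct H ρ := by
  apply embeds_of_cover_met hρ
  intro S
  obtain ⟨p, hp⟩ := univ_MM S hH (fun b : S => (b : H))
  exact ⟨MM (gam S), inferInstance, p, fun s hs => ⟨gen S ⟨s, hs⟩, hp ⟨s, hs⟩⟩, pc_MM S,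
    metabelian_MM S⟩

end Pool.Agent.H96MB
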