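import Pool.Agent.H96MB.Magnus

set_option autoImplicit false

/-!
# L1, the Magnus lemma (helper65)
-/

namespace Pool.Agent.H96MB
open Pool.Agent.H18PC

/-- L1 -/
theorem magnus {Γ ι : Type*} [AddCommGroup Γ] (γ : ι → Γ) {H : Type*} [Group H]
    (A : Subgroup H) (hAn : A.Normal) (hA : ∀ x ∈ A, ∀ y ∈ A, x * y = y * x)
    (h : ι → H) (lift : Γ → H) (hl0 : lift 0 = 1)
    (hladd : ∀ s t, lift s * lift t * (lift (s + t))⁻¹ ∈ A)
    (hlγ : ∀ j, h j * (lift (γ j))⁻¹ ∈ A) :
    ∃ p : W Γ ι → H, (∀ x y, IsMg γ x → IsMg γ y → p (x * y) = p x * p y) ∧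
      ∀ j, p (E γ j) = h j := by
  classical
  let iA : CommGroup A := { (inferInstance : Group A) with
    mul_comm := fun x y => Subtype.ext (hA x x.2 y y.2) }
  have hl : ∀ q : Γ × ι, lift q.1 * h q.2 * (lift (q.1 + γ q.2))⁻¹ ∈ A := by
    intro q
    have h1 := hAn.conj_mem _ (hlγ q.2) (lift q.1)
    have h2 := A.mul_mem h1 (hladd q.1 (γ q.2))
    have h3 : lift q.1 * (h q.2 * (lift (γ q.2))⁻¹) * (lift q.1)⁻¹ *
        (lift q.1 * lift (γ q.2) * (lift (q.1 + γ q.2))⁻¹) =
        lift q.1 * h q.2 * (lift (q.1 + γ q.2))⁻¹ := by group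
    rwa [h3] at h2
  let l : Γ × ι → A := fun q => ⟨lift q.1 * h q.2 * (lift (q.1 + γ q.2))⁻¹, hl q⟩
  let f : Γ → Γ → A := fun s t => ⟨lift s * lift t * (lift (s + t))⁻¹, hladd s t⟩
  let lam : (Γ × ι →₀ ℤ) →+ Additive A :=
    Finsupp.liftAddHom fun q => zmultiplesHom (Additive A) (Additive.ofMul (l q))
  let F : Γ → ((Γ →₀ ℤ) →+ Additive A) := fun s =>
    Finsupp.liftAddHom fun t => zmultiplesHom (Additive A) (Additive.ofMul (f s t))
  have lam1 : ∀ q, lam (Finsupp.single q 1) = Additive.ofMul (l q) := by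
    intro q
    simp only [lam, Finsupp.liftAddHom_apply_single, zmultiplesHom_apply, one_zsmul]
  have F1 : ∀ s t, F s (Finsupp.single t 1) = Additive.ofMul (f s t) := by
    intro s t
    simp only [F, Finsupp.liftAddHom_apply_single, zmultiplesHom_apply, one_zsmul]
  let cs : Γ → (Additive A →+ Additive A) := fun s =>
    MonoidHom.toAdditive ((MulAut.conjNormal (lift s) : MulAut A) : A →* A)
  have key : ∀ s, (cs s).comp lam = lam.comp (shift s) - (F s).comp (bd γ) := by
    intro s
    refine Finsupp.addHom_ext' fun q => AddMonoidHom.ext_int ?_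
    show cs s (lam (Finsupp.single q 1)) =
      lam (shift s (Finsupp.single q 1)) - F s (bd γ (Finsupp.single q 1))
    have e1 : shift s (Finsupp.single q (1 : ℤ)) = Finsupp.single (s + q.1, q.2) 1 := by
      unfold shift
      simp [Finsupp.mapDomain_single]
    have e2 : bd γ (Finsupp.single q (1 : ℤ)) =
        Finsupp.single (q.1 + γ q.2) 1 - Finsupp.single q.1 1 := by
      unfold bd
      simp [Finsupp.mapDomain_single]
    rw [e1, e2, map_sub, lam1, lam1, F1, F1]
    show Additive.ofMul ((MulAut.conjNormal (lift s) : MulAut A) (l q)) =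
      Additive.ofMul (l (s + q.1, q.2) / (f s (q.1 + γ q.2) / f s q.1))
    congr 1
    apply Subtype.ext
    rw [MulAut.conjNormal_apply, div_div_eq_mul_div, mul_comm (l (s + q.1, q.2)) (f s q.1)]
    show lift s * (lift q.1 * h q.2 * (lift (q.1 + γ q.2))⁻¹) * (lift s)⁻¹ =
      (lift s * lift q.1 * (lift (s + q.1))⁻¹) *
        (lift (s + q.1) * h q.2 * (lift (s + q.1 + γ q.2))⁻¹) /
        (lift s * lift (q.1 + γ q.2) * (lift (s + (q.1 + γ q.2)))⁻¹)
    rw [add_assoc, div_eq_mul_inv]
    group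
  have key2 : ∀ s m t, bd γ m = Finsupp.single t 1 - Finsupp.single 0 1 →
      lift s * ((lam m).toMul : H) * (lift s)⁻¹ =
        ((lam (shift s m)).toMul : H) * (lift s * lift t * (lift (s + t))⁻¹)⁻¹ := by
    intro s m t hm
    have h1 := DFunLike.congr_fun (key s) m
    have h2 : F s (bd γ m) = Additive.ofMul (f s t) := by
      rw [hm, map_sub, F1, F1]
      have : f s 0 = 1 := by
        apply Subtype.ext
        show lift s * lift 0 * (lift (s + 0))⁻¹ = 1
        rw [hl0, add_zero, mul_one, mul_inv_cancel]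
      rw [this, ofMul_one, sub_zero]
    have h3 : (cs s (lam m)) = lam (shift s m) - F s (bd γ m) := h1
    rw [h2] at h3
    have h4 : (MulAut.conjNormal (lift s) : MulAut A) (lam m).toMul =
        (lam (shift s m)).toMul / f s t := h3
    have h5 := congrArg (Subtype.val) h4
    rw [MulAut.conjNormal_apply] at h5
    rw [h5, Subgroup.coe_div, div_eq_mul_inv]
  refine ⟨fun w => ((lam w.m).toMul : H) * lift w.t, ?_, ?_⟩
  · intro x y hx hy
    show ((lam (x.m + shift x.t y.m)).toMul : H) * lift (x.t + y.t) =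
      ((lam x.m).toMul : H) * lift x.t * (((lam y.m).toMul : H) * lift y.t)
    have h1 := key2 x.t y.m y.t hy
    have h2 : ((lam (x.m + shift x.t y.m)).toMul : H) =
        ((lam x.m).toMul : H) * ((lam (shift x.t y.m)).toMul : H) := by
      rw [map_add]
      rfl
    have h3 : lift x.t * ((lam y.m).toMul : H) =
        ((lam (shift x.t y.m)).toMul : H) * (lift x.t * lift y.t * (lift (x.t + y.t))⁻¹)⁻¹ *
          lift x.t := by
      rw [← h1]
      group
    calc ((lam (x.m + shift x.t y.m)).toMul : H) * lift (x.t + y.t)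
        = ((lam x.m).toMul : H) * ((lam (shift x.t y.m)).toMul : H) * lift (x.t + y.t) := by rw [h2]
      _ = ((lam x.m).toMul : H) * (((lam (shift x.t y.m)).toMul : H) *
            (lift x.t * lift y.t * (lift (x.t + y.t))⁻¹)⁻¹ * lift x.t) * lift y.t := by group
      _ = ((lam x.m).toMul : H) * (lift x.t * ((lam y.m).toMul : H)) * lift y.t := by rw [h3]
      _ = _ := by group
  · intro j
    show ((lam (Finsupp.single (0, j) 1)).toMul : H) * lift (γ j) = h j
    rw [lam1]
    show lift 0 * h j * (lift (0 + γ j))⁻¹ * lift (γ j) = h j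
    rw [hl0, zero_add]
    group

end Pool.Agent.H96MB
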